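import Pool.Agent.Run7.h104.Q2.Defs

/-! Piece APX of project Q2 (helper104, MP_5bfbcb_an): one-sided approximation of continuous functions by
real parts of entire functions. -/

set_option autoImplicit false

namespace Pool.Agent.Run7.h888.Q2

open MeasureTheory AddCircle Complex Set Filter Topology Pool.Agent.W767.HL

/-- **APX**. -/
theorem t_APX : Pool.Agent.Run7.h104.Q2.S_APX := by
  intro φ hφ ε hε
  let u : C(Ci, ℂ) := ⟨fun θ => ((φ θ - ε / 2 : ℝ) : ℂ),
    Complex.continuous_ofReal.comp (hφ.sub continuous_const)⟩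
  have hu : u ∈ (Submodule.span ℂ (Set.range
      (fun n : ℤ => (fourier n : C(Ci, ℂ))))).topologicalClosure := by
    rw [span_fourier_closure_eq_top]
    trivial
  rw [← SetLike.mem_coe, Submodule.topologicalClosure_coe, Metric.mem_closure_iff] at hu
  obtain ⟨q, hq, hqu⟩ := hu (ε / 2) (by linarith)
  obtain ⟨H₁, H₂, h1, h2, h12⟩ := trig_split hq
  refine ⟨fun z => H₁ z + H₂ z, h1.add h2, ?_⟩
  intro θ
  have h3 : (H₁ (ze θ) + H₂ (ze θ)).re = (q θ).re := by
    rw [h12]
    simp
  have h4 : ‖u θ - q θ‖ ≤ ε / 2 := by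
    have := ContinuousMap.dist_apply_le_dist (f := u) (g := q) θ
    rw [dist_eq_norm] at this
    linarith
  have h5 := (Complex.abs_re_le_norm (u θ - q θ)).trans h4
  have h6 : (u θ - q θ).re = φ θ - ε / 2 - (q θ).re := by
    rw [Complex.sub_re]
    simp [u]
  rw [h6] at h5
  have h7 := abs_le.mp h5
  simp only
  rw [h3]
  constructor <;> linarith [h7.1, h7.2]

end Pool.Agent.Run7.h888.Q2
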