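import Pool.Agent.Run7.h104.Q2.Defs

/-! Piece CHAIN of project Q2 (helper104, MP_5bfbcb_an): iterate the local lemma horizontally. -/

set_option autoImplicit false

namespace Pool.Agent.Run7.h888.Q2

open MeasureTheory AddCircle Complex Set Filter Topology Pool.Agent.W767.HL
open Pool.Agent.Run7.h104.Q2

lemma norm_pt (y : ℝ) (θ : Ci) : ‖pt y θ‖ = Real.exp (-y) := by
  unfold pt
  rw [norm_mul, norm_ze, mul_one, Complex.norm_real, Real.norm_eq_abs, abs_of_pos (Real.exp_pos _)]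

lemma pt_ne_zero (y : ℝ) (θ : Ci) : pt y θ ≠ 0 := by
  rw [← norm_pos_iff, norm_pt]
  exact Real.exp_pos _

lemma dep_pt (y : ℝ) (θ : Ci) : dep (pt y θ) = y := by
  unfold dep
  rw [norm_pt, Real.log_exp, neg_neg]

lemma continuous_pt (y : ℝ) : Continuous fun θ : Ci => pt y θ := by
  unfold pt
  exact continuous_const.mul continuous_ze

lemma Yc_nonneg {yb S D' : ℝ} {F h : ℂ → ℂ} (hL : LocData yb S F h) (hD : 0 < D') {z : ℂ} (hz : z ≠ 0)
    (h1 : yb ≤ dep z) (h2 : dep z ≤ 4 * yb) : 0 ≤ Yc S D' F h z := by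
  unfold Yc
  have h3 := hL.pos z hz h1 h2
  have h4 : max ‖F z‖ (Real.exp (S + (h z).re - D')) ≤ Real.exp (S + (h z).re) :=
    max_le h3 (Real.exp_le_exp.mpr (by linarith))
  have h5 : Real.log (max ‖F z‖ (Real.exp (S + (h z).re - D'))) ≤ S + (h z).re := by
    rw [Real.log_le_iff_le_exp (lt_max_of_lt_right (Real.exp_pos _))]
    exact h4
  linarith

lemma Yc_le (S D' : ℝ) (F h : ℂ → ℂ) (z : ℂ) : Yc S D' F h z ≤ D' := by
  unfold Yc
  have h5 : S + (h z).re - D' ≤ Real.log (max ‖F z‖ (Real.exp (S + (h z).re - D'))) := by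
    rw [Real.le_log_iff_exp_le (lt_max_of_lt_right (Real.exp_pos _))]
    exact le_max_right _ _
  linarith

lemma Yc_cases (S D' : ℝ) (F h : ℂ → ℂ) (z : ℂ) (B : ℝ) (hB : Yc S D' F h z ≤ B) :
    (F z ≠ 0 ∧ S + (h z).re - Real.log ‖F z‖ ≤ B) ∨ D' ≤ B := by
  unfold Yc at hB
  rcases le_total (Real.exp (S + (h z).re - D')) ‖F z‖ with h1 | h1
  · left
    rw [max_eq_left h1] at hB
    refine ⟨?_, hB⟩
    intro h0
    rw [h0, norm_zero] at h1
    exact absurd (Real.exp_pos (S + (h z).re - D')) (not_lt.mpr h1)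
  · right
    rw [max_eq_right h1, Real.log_exp] at hB
    linarith

lemma continuous_Yc {yb S D' : ℝ} {F h : ℂ → ℂ} (hL : LocData yb S F h) (y : ℝ) :
    Continuous fun t : ℝ => Yc S D' F h (pt y (t : Ci)) := by
  have hp : Continuous fun t : ℝ => pt y (t : Ci) := (continuous_pt y).comp (AddCircle.continuous_mk' 1)
  have hh : Continuous fun t : ℝ => (h (pt y (t : Ci))).re :=
    Complex.continuous_re.comp (hL.hh.continuous.comp hp)
  have hF : Continuous fun t : ℝ => F (pt y (t : Ci)) := by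
    rw [continuous_iff_continuousAt]
    intro t
    exact ContinuousAt.comp (f := fun t : ℝ => pt y (t : Ci)) (hL.hF _ (pt_ne_zero y _)).continuousAt hp.continuousAt
  unfold Yc
  refine (continuous_const.add hh).sub (Continuous.log (hF.norm.max (Real.continuous_exp.comp
    ((continuous_const.add hh).sub continuous_const))) ?_)
  intro t
  exact (lt_max_of_lt_right (Real.exp_pos _)).ne'

/-- a point where the function is at most its mean -/
lemma exists_le_mean (f : ℝ → ℝ) (hf : Continuous f) (a b A : ℝ) (hab : a < b)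
    (h : ∫ t in a..b, f t ≤ A) : ∃ t ∈ Icc a b, f t ≤ A / (b - a) := by
  by_contra hcon
  push Not at hcon
  have h0 : 0 < b - a := by linarith
  obtain ⟨t₀, ht₀, hmin⟩ := isCompact_Icc.exists_isMinOn (nonempty_Icc.mpr hab.le) hf.continuousOn
  have h1 : (b - a) * f t₀ ≤ ∫ t in a..b, f t := by
    have h2 : ∫ _ in a..b, f t₀ = (b - a) * f t₀ := by simp
    rw [← h2]
    apply intervalIntegral.integral_mono_on hab.le (by simp) (hf.intervalIntegrable _ _)
    intro t ht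
    exact hmin ht
  have h3 := hcon t₀ ht₀
  rw [div_lt_iff₀ h0] at h3
  linarith

lemma sub_int {yb S D' : ℝ} {F h : ℂ → ℂ} (hL : LocData yb S F h) (hD : 0 < D') (y : ℝ) (h1 : yb ≤ y)
    (h2 : y ≤ 4 * yb) (a b c d : ℝ) (hca : c ≤ a) (hab : a ≤ b) (hbd : b ≤ d) :
    ∫ t in a..b, Yc S D' F h (pt y (t : Ci)) ≤ ∫ t in c..d, Yc S D' F h (pt y (t : Ci)) := by
  apply intervalIntegral.integral_mono_interval hca hab hbd
  · apply Filter.Eventually.of_forall
    intro t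
    exact Yc_nonneg hL hD (pt_ne_zero _ _) (by rw [dep_pt]; exact h1) (by rw [dep_pt]; exact h2)
  · exact (continuous_Yc hL y).intervalIntegrable _ _

/-- the induction -/
lemma chain_aux (hLOC : S_LOC) (n : ℕ) : ∃ C : ℝ, 1 ≤ C ∧ ∀ (yb S D' : ℝ) (F h : ℂ → ℂ), LocData yb S F h → 0 < D' →
    ∀ (tg t0 Y0 : ℝ), 0 < Y0 → F (pt (2 * yb) (tg : Ci)) ≠ 0 →
    S + (h (pt (2 * yb) (tg : Ci))).re - Real.log ‖F (pt (2 * yb) (tg : Ci))‖ ≤ Y0 →
    |t0 - tg| ≤ n * (yb / 16) → ∃ t' : ℝ, |t' - t0| ≤ yb / 32 ∧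
      ((F (pt (yb * (1 + (1 / 2) ^ n)) (t' : Ci)) ≠ 0 ∧ S + (h (pt (yb * (1 + (1 / 2) ^ n)) (t' : Ci))).re -
        Real.log ‖F (pt (yb * (1 + (1 / 2) ^ n)) (t' : Ci))‖ ≤ C * Y0) ∨ D' ≤ C * Y0) := by
  induction n with
  | zero =>
    refine ⟨1, le_refl _, ?_⟩
    intro yb S D' F h hL hD tg t0 Y0 hY0 hF hV ht
    have hyb := hL.hyb
    refine ⟨tg, ?_, Or.inl ?_⟩
    · rw [Nat.cast_zero, zero_mul] at ht
      rw [abs_sub_comm]
      linarith
    · have e1 : yb * (1 + (1 / 2) ^ 0) = 2 * yb := by norm_num; ring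
      rw [e1, one_mul]
      exact ⟨hF, hV⟩
  | succ n ih =>
    obtain ⟨C, hC, ih⟩ := ih
    refine ⟨2 ^ (n + 7) * C, ?_, ?_⟩
    · have : (1 : ℝ) ≤ 2 ^ (n + 7) := one_le_pow₀ (by norm_num)
      nlinarith
    intro yb S D' F h hL hD tg t0 Y0 hY0 hF hV ht
    have hyb := hL.hyb
    have h2n : (1 : ℝ) ≤ 2 ^ (n + 7) := one_le_pow₀ (by norm_num)
    have hCY : C * Y0 ≤ 2 ^ (n + 7) * C * Y0 := by
      have : 0 < C * Y0 := by positivity
      nlinarith
    obtain ⟨t1, ht1, ht2⟩ : ∃ t1 : ℝ, |t1 - tg| ≤ n * (yb / 16) ∧ |t0 - t1| ≤ yb / 16 := by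
      have hn0 : (0 : ℝ) ≤ n := Nat.cast_nonneg _
      have hn1 : (0 : ℝ) < (n : ℝ) + 1 := by positivity
      refine ⟨tg + n / (n + 1) * (t0 - tg), ?_, ?_⟩
      · have e1 : tg + n / (n + 1) * (t0 - tg) - tg = n / (n + 1) * (t0 - tg) := by ring
        rw [e1, abs_mul, abs_of_nonneg (by positivity)]
        push_cast at ht
        calc (n : ℝ) / (n + 1) * |t0 - tg| ≤ n / (n + 1) * ((n + 1) * (yb / 16)) := by gcongr
          _ = n * (yb / 16) := by field_simp
      · have e1 : t0 - (tg + n / (n + 1) * (t0 - tg)) = 1 / (n + 1) * (t0 - tg) := by field_simp; ring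
        rw [e1, abs_mul, abs_of_nonneg (by positivity)]
        push_cast at ht
        calc (1 : ℝ) / (n + 1) * |t0 - tg| ≤ 1 / (n + 1) * ((n + 1) * (yb / 16)) := by gcongr
          _ = yb / 16 := by field_simp
    obtain ⟨t', ht', hcase⟩ := ih yb S D' F h hL hD tg t1 Y0 hY0 hF hV ht1
    rcases hcase with ⟨hF', hV'⟩ | hD'
    · have hp0 : (0 : ℝ) < (1 / 2) ^ (n + 1) := by positivity
      have hps : (1 / 2 : ℝ) ^ n = 2 * (1 / 2) ^ (n + 1) := by rw [pow_succ]; ring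
      have hp1 : (1 / 2 : ℝ) ^ n ≤ 1 := pow_le_one₀ (by norm_num) (by norm_num)
      have hl := hLOC yb S D' F h hL hD (yb * (1 + (1 / 2) ^ (n + 1))) (yb * (1 + (1 / 2) ^ n)) t'
        (by nlinarith) (by rw [hps]; nlinarith) (by nlinarith) hF'
      have e1 : 4 * (yb ^ 2 / (yb * (1 + (1 / 2) ^ n) - yb * (1 + (1 / 2) ^ (n + 1)))) = yb * 2 ^ (n + 3) := by
        have e2 : yb * (1 + (1 / 2) ^ n) - yb * (1 + (1 / 2) ^ (n + 1)) = yb / 2 ^ (n + 1) := by
          rw [hps, one_div, inv_pow, div_eq_mul_inv]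
          ring
        rw [e2]
        have : (2 : ℝ) ^ (n + 3) = 4 * 2 ^ (n + 1) := by ring
        rw [this]
        field_simp
      rw [e1] at hl
      have h3 : ∫ t in (t' - yb / 8)..(t' + yb / 8), Yc S D' F h (pt (yb * (1 + (1 / 2) ^ (n + 1))) (t : Ci)) ≤
          yb * 2 ^ (n + 3) * (C * Y0) := hl.trans (by gcongr)
      have a1 := abs_le.mp ht'
      have a2 := abs_le.mp ht2
      have h4 := sub_int hL hD (yb * (1 + (1 / 2) ^ (n + 1))) (by nlinarith) (by nlinarith) (t0 - yb / 32) (t0 + yb / 32)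
        (t' - yb / 8) (t' + yb / 8) (by linarith [a1.1, a1.2, a2.1, a2.2]) (by linarith)
        (by linarith [a1.1, a1.2, a2.1, a2.2])
      obtain ⟨t, ht, hY⟩ := exists_le_mean _ (continuous_Yc (D' := D') hL (yb * (1 + (1 / 2) ^ (n + 1)))) (t0 - yb / 32)
        (t0 + yb / 32) _ (by linarith) (h4.trans h3)
      refine ⟨t, ?_, ?_⟩
      · rw [abs_le]
        constructor <;> linarith [ht.1, ht.2]
      · have e3 : yb * 2 ^ (n + 3) * (C * Y0) / (t0 + yb / 32 - (t0 - yb / 32)) = 2 ^ (n + 7) * C * Y0 := by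
          have e4 : t0 + yb / 32 - (t0 - yb / 32) = yb / 16 := by ring
          rw [e4]
          have : (2 : ℝ) ^ (n + 7) = 16 * 2 ^ (n + 3) := by ring
          rw [this]
          field_simp
        rw [e3] at hY
        exact Yc_cases S D' F h _ _ hY
    · exact ⟨t0, by rw [sub_self, abs_zero]; linarith, Or.inr (hD'.trans hCY)⟩

/-- **CHAIN**. -/
theorem t_CHAIN (hLOC : S_LOC) : S_CHAIN := by
  intro n
  obtain ⟨C, hC, hn⟩ := chain_aux hLOC n
  refine ⟨2 ^ (n + 2) * C, ?_, ?_⟩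
  · have : (1 : ℝ) ≤ 2 ^ (n + 2) := one_le_pow₀ (by norm_num)
    nlinarith
  intro yb S D' F h hL hD tg t0 Y0 hY0 hF hV ht
  have hyb := hL.hyb
  have h2n : (1 : ℝ) ≤ 2 ^ (n + 2) := one_le_pow₀ (by norm_num)
  obtain ⟨t', ht', hcase⟩ := hn yb S D' F h hL hD tg t0 Y0 hY0 hF hV ht
  rcases hcase with ⟨hF', hV'⟩ | hD'
  · have hp0 : (0 : ℝ) < (1 / 2) ^ n := by positivity
    have hp1 : (1 / 2 : ℝ) ^ n ≤ 1 := pow_le_one₀ (by norm_num) (by norm_num)
    have hl := hLOC yb S D' F h hL hD yb (yb * (1 + (1 / 2) ^ n)) t' (le_refl _) (by nlinarith) (by nlinarith) hF'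
    have e1 : 4 * (yb ^ 2 / (yb * (1 + (1 / 2) ^ n) - yb)) = yb * 2 ^ (n + 2) := by
      have e2 : yb * (1 + (1 / 2) ^ n) - yb = yb / 2 ^ n := by
        rw [one_div, inv_pow, div_eq_mul_inv]
        ring
      rw [e2]
      have : (2 : ℝ) ^ (n + 2) = 4 * 2 ^ n := by ring
      rw [this]
      field_simp
    rw [e1] at hl
    have h3 : ∫ t in (t' - yb / 8)..(t' + yb / 8), Yc S D' F h (pt yb (t : Ci)) ≤
        yb * 2 ^ (n + 2) * (C * Y0) := hl.trans (by gcongr)
    have a1 := abs_le.mp ht'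
    have h4 := sub_int hL hD yb (le_refl _) (by linarith) (t0 - yb / 16) (t0 + yb / 16)
      (t' - yb / 8) (t' + yb / 8) (by linarith [a1.1, a1.2]) (by linarith) (by linarith [a1.1, a1.2])
    refine (h4.trans h3).trans (le_of_eq ?_)
    ring
  · have h1 : ∫ t in (t0 - yb / 16)..(t0 + yb / 16), Yc S D' F h (pt yb (t : Ci)) ≤
        ∫ _ in (t0 - yb / 16)..(t0 + yb / 16), D' := by
      apply intervalIntegral.integral_mono_on (by linarith) ((continuous_Yc hL yb).intervalIntegrable _ _) (by simp)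
      intro t _
      exact Yc_le _ _ _ _ _
    rw [intervalIntegral.integral_const, smul_eq_mul] at h1
    refine h1.trans ?_
    have e1 : t0 + yb / 16 - (t0 - yb / 16) = yb / 8 := by ring
    rw [e1]
    have h3 : 0 < C * Y0 := by positivity
    calc yb / 8 * D' ≤ yb / 8 * (C * Y0) := by gcongr
      _ ≤ 2 ^ (n + 2) * C * yb * Y0 := by
        have : 0 < yb * (C * Y0) := by positivity
        nlinarith

end Pool.Agent.Run7.h888.Q2
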