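import Pool.Agent.Run7.h888.Q2.PotA

/-! Piece NS (non steep step) of project Q2 (helper104, MP_5bfbcb_an). -/

set_option autoImplicit false

namespace Pool.Agent.Run7.h888.Q2

open MeasureTheory AddCircle Complex Set Filter Topology Pool.Agent.W767.HL
open Pool.Agent.Run7.h104.Q2

lemma beta_bound2 {A0 c0 γ q D0 σ : ℝ} {i r s : ℕ} (hA : 1 ≤ A0) (hc : 0 < c0) (hc1 : c0 ≤ 1)
    (hγ : 1 < γ) (hγr : γ ^ (s + r + 1) ≤ 1 + c0 / 8) (hs : 512 * (1 + A0) ≤ c0 * 2 ^ s)
    (hq : 0 < q) (hD : 0 < D0) (hσ : 0 < σ)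
    (hCs : 64 * (1 + A0) / c0 * (2 ^ i * D0) ≤ σ * (q * γ ^ i)) :
    (16 * γ ^ (r + 1) * (q * γ ^ (i + s)) / (2 ^ (i + s) * D0) + 2 / σ) * ((1 + A0) * (2 ^ i * D0))
      ≤ c0 * (q * γ ^ i) / 8 := by
  have hγ0 : 0 < γ := by linarith
  have hQ : 0 < q * γ ^ i := by positivity
  have e1 : 16 * γ ^ (r + 1) * (q * γ ^ (i + s)) / (2 ^ (i + s) * D0) * ((1 + A0) * (2 ^ i * D0))
      = (16 * (1 + A0) * (q * γ ^ i)) * γ ^ (s + r + 1) / 2 ^ s := by
    rw [pow_add 2 i s]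
    field_simp
    ring
  have h4 : (16 * (1 + A0) * (q * γ ^ i)) * γ ^ (s + r + 1) / 2 ^ s
      ≤ c0 * (q * γ ^ i) * (9 / 256) := by
    rw [div_le_iff₀ (by positivity)]
    have h5 : (16 * (1 + A0) * (q * γ ^ i)) * γ ^ (s + r + 1)
        ≤ (16 * (1 + A0) * (q * γ ^ i)) * (9 / 8) :=
      mul_le_mul_of_nonneg_left (by linarith) (by positivity)
    have h6 : 512 * (1 + A0) * (q * γ ^ i) ≤ c0 * 2 ^ s * (q * γ ^ i) :=
      mul_le_mul_of_nonneg_right hs hQ.le
    linarith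
  have h7 : 2 / σ * ((1 + A0) * (2 ^ i * D0)) ≤ c0 * (q * γ ^ i) / 32 := by
    rw [div_mul_eq_mul_div, div_le_iff₀ hσ]
    have h8 : 64 * (1 + A0) / c0 * (2 ^ i * D0) * c0 = 64 * ((1 + A0) * (2 ^ i * D0)) := by
      field_simp
    have h9 := mul_le_mul_of_nonneg_right hCs hc.le
    rw [h8] at h9
    linarith
  rw [add_mul, e1]
  have : 0 < c0 * (q * γ ^ i) := by positivity
  linarith

lemma measurable_E (F : ℤ →₀ ℂ) (τ A : ℝ) :
    Integrable (fun θ : Ci => if ‖ev F (pt τ θ)‖ ≤ A then (1 : ℝ) else 0) mu := by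
  have hc : Continuous fun t : Ci => ev F (pt τ t) := by
    rw [continuous_iff_continuousAt]
    intro t
    exact ContinuousAt.comp (f := fun t : Ci => pt τ t) (g := fun z => ev F z)
      (analyticAt_ev F (pt_ne_zero τ _)).continuousAt (continuous_pt τ).continuousAt
  have hm : MeasurableSet {θ : Ci | ‖ev F (pt τ θ)‖ ≤ A} :=
    (isClosed_le hc.norm continuous_const).measurableSet
  have h1 : Measurable (fun θ : Ci => if ‖ev F (pt τ θ)‖ ≤ A then (1 : ℝ) else 0) :=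
    Measurable.ite hm measurable_const measurable_const
  refine Integrable.of_bound h1.aestronglyMeasurable 1 (Filter.Eventually.of_forall fun θ => ?_)
  by_cases hθ : ‖ev F (pt τ θ)‖ ≤ A
  · simp only [hθ, if_true, norm_one, le_refl]
  · simp only [hθ, if_false, norm_zero, zero_le_one]

theorem t_NS (hHEX : S_HEX) (hPOT : S_POT) : S_NS := by
  intro κ1 A0 c0 g1 g2 g3 g4 g5
  obtain ⟨Dm2, hX⟩ := hHEX
  obtain ⟨s0, hs0⟩ := pow_unbounded_of_one_lt (512 * (1 + A0) / c0) (one_lt_two (α := ℝ))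
  have hκsq : κ1 ^ 2 ≤ 1 / 16 := by nlinarith
  have hκsq0 : 0 < κ1 ^ 2 := by positivity
  refine ⟨c0 / 16 * κ1 ^ 2 / 4, 64 * (1 + A0) / c0, max (max Dm2 10000) (2048 / c0), s0 + 1,
    by positivity, by nlinarith, by nlinarith, by omega, ?_, ?_⟩
  · rw [le_div_iff₀ g4]
    linarith
  intro r hr γ hγ hγr D0 σ q N G f ell W hD hσ hq S hW i hiN hns hQ hCs hBd1 hBd2
  have hs : 512 * (1 + A0) ≤ c0 * 2 ^ (s0 + 1) := by
    rw [div_lt_iff₀ g4] at hs0
    rw [pow_succ]
    have : (0 : ℝ) < 2 ^ s0 * c0 := by positivity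
    linarith
  generalize hss : s0 + 1 = s at *
  have hs1 : 1 ≤ s := by omega
  have hD2 : Dm2 ≤ D0 := le_trans (le_trans (le_max_left _ _) (le_max_left _ _)) hD
  have hD3 : 10000 ≤ D0 := le_trans (le_trans (le_max_right _ _) (le_max_left _ _)) hD
  have hD4 : 2048 / c0 ≤ D0 := le_trans (le_max_right _ _) hD
  have hD0 : 0 < D0 := by linarith
  have hσ0 : 0 < σ := by linarith
  have hγ0 : 0 < γ := by linarith
  have hγ2 : γ ≤ 2 := by
    have h1 : γ ≤ γ ^ (s + r + 1) := le_self_pow₀ hγ.le (by omega)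
    linarith
  set κ6 := c0 / 16 * κ1 ^ 2 / 4 with hκ6
  have hκ60 : 0 < κ6 := by positivity
  have hκ61 : κ6 ≤ 1 / 16 := by
    rw [hκ6]
    nlinarith
  have hQ0 : 0 < q * γ ^ i := by positivity
  set k := i + s with hk
  have hkN : k ≤ N := by omega
  have hik : i < k := by omega
  have hlk : 0 < ell k := S.ell_pos k
  have hli : 0 < ell i := S.ell_pos i
  have hlki : ell k ≤ ell i := S.ell_anti hik.le
  set τ := c0 / 16 * κ1 * ell k with hτ
  have hτ0 : 0 < τ := by positivity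
  have hcκ : c0 * κ1 ≤ 1 / 4 := by nlinarith
  have hcκ0 : 0 < c0 * κ1 := by positivity
  have hτi : τ < ell i := by
    have h1 : τ = (c0 * κ1) * (ell k / 16) := by
      rw [hτ]
      ring
    rw [h1]
    nlinarith
  -- the index k'
  set Pk : ℕ → Prop := fun j => 4 * τ ≤ κ1 * ell j with hPk
  classical
  set k' := Nat.findGreatest Pk N with hkdef
  have hPkk : Pk k := by
    show 4 * τ ≤ κ1 * ell k
    rw [hτ]
    have : 0 < κ1 * ell k := by positivity
    nlinarith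
  have hkk' : k ≤ k' := Nat.le_findGreatest hkN hPkk
  have hk'N : k' ≤ N := Nat.findGreatest_le N
  have hk1 : 4 * τ ≤ κ1 * ell k' := by
    have : Pk k' := Nat.findGreatest_spec (P := Pk) hkN hPkk
    exact this
  have hk2 : k' < N → κ1 * ell (k' + 1) < 4 * τ := by
    intro hlt
    have : ¬ Pk (k' + 1) := Nat.findGreatest_is_greatest (P := Pk) (Nat.lt_succ_self k') hlt
    simpa only [hPk, not_le] using this
  have hlr : ell (k + r) ≤ τ := by
    have h1 : 4 * (κ6 * ell k) = κ1 * τ := by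
      rw [hκ6, hτ]
      ring
    rw [h1] at hns
    exact (lt_of_mul_lt_mul_left hns g1.le).le
  obtain ⟨h, r', hHR⟩ := hX κ1 (4 * κ6) A0 c0 D0 N G f ell g1 g2 (by linarith) hD2 S k hkN
  set β := 16 * γ ^ (r + 1) * (q * γ ^ k) / (2 ^ k * D0) + 2 / σ with hβ
  have hβ0 : 0 < β := by
    have : 0 < 16 * γ ^ (r + 1) * (q * γ ^ k) / (2 ^ k * D0) := by positivity
    have : 0 < 2 / σ := by positivity
    linarith
  have h2i : (1 : ℝ) ≤ 2 ^ i := one_le_pow₀ (by norm_num)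
  have hβb : β * ((1 + A0) * (2 ^ i * D0)) ≤ c0 * (q * γ ^ i) / 8 :=
    beta_bound2 g3 g4 g5 hγ hγr hs hq hD0 hσ0 hCs
  have hβb' : β ≤ c0 * (q * γ ^ i) / 8 := by
    refine le_trans ?_ hβb
    have h1 : 1 * 1 ≤ (2 : ℝ) ^ i * D0 := mul_le_mul h2i (by linarith) (by norm_num) (by positivity)
    have h2 : 1 * (1 * 1) ≤ (1 + A0) * (2 ^ i * D0) :=
      mul_le_mul (by linarith) h1 (by norm_num) (by linarith)
    have h3 := mul_le_mul_of_nonneg_left h2 hβ0.le
    linarith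
  have hκk : 4 * κ6 * ell k ≤ ell i := by nlinarith
  set Q := q * γ ^ (k + r) with hQdef
  have hQp : 0 < Q := by positivity
  have hQle : Q ≤ q * γ ^ i * (1 + c0 / 8) := by
    have h1 : Q = q * γ ^ i * γ ^ (s + r) := by
      rw [hQdef, hk]
      ring
    have h2 : γ ^ (s + r) ≤ γ ^ (s + r + 1) := pow_le_pow_right₀ hγ.le (by omega)
    rw [h1]
    exact mul_le_mul_of_nonneg_left (h2.trans hγr) hQ0.le
  have hP := mkPot (κ7 := 4 * κ6) (r := r) (k := k) (U := Q) g1 (by linarith) hσ hq hγ hγ2 S hW hHR hkN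
    (fun j hj hjN => hBd1 j (by omega) hjN) hQp.le (fun z hz hz1 hd => hBd1 k hik hkN z hz hz1 (by
      refine le_trans ?_ hd
      have : 0 < κ1 * ell k := by positivity
      linarith))
  intro w hw hw1 hdw
  by_cases hpos : 0 < (W w).re
  swap
  · push Not at hpos
    linarith
  have hwlt : ‖w‖ < 1 := norm_lt_of_dep hw (by linarith)
  have hPG := hW.W2 w hwlt hpos
  have hPG8 : PI (fun θ => ‖ev G (ze θ)‖) w ≤ Real.exp (D0 / 8) :=
    hPG.trans (Real.exp_le_exp.mpr (by linarith))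
  set E : Ci → ℝ := fun θ => if ‖ev (f k') (pt τ θ)‖ ≤ Real.exp (-(A0 * (2 ^ i * D0))) then 1 else 0
    with hE
  have hEint : Integrable E mu := measurable_E (f k') τ _
  have pw : ∀ θ, (W (pt τ θ)).re ≤ (c0 / 16 * Q + β * (D0 / 3 + A0 * (2 ^ i * D0))
      + 20 * β * Real.exp (-(D0 / 8))) + β * (h (pt τ θ)).re + (r' (pt τ θ)).re + Q * E θ := by
    intro θ
    have hn1 : ‖pt τ θ‖ ≤ 1 := by
      rw [norm_pt]
      exact Real.exp_le_one_iff.mpr (by linarith)
    have hr0' := hHR.hr0 _ hn1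
    have hh0' := mul_nonneg hβ0.le (hHR.hh0 _ hn1)
    have hβe : 0 ≤ 20 * β * Real.exp (-(D0 / 8)) := by positivity
    have hβA : 0 ≤ β * (D0 / 3 + A0 * (2 ^ i * D0)) := by positivity
    have hcQ : 0 ≤ c0 / 16 * Q := by positivity
    by_cases hθ : ‖ev (f k') (pt τ θ)‖ ≤ Real.exp (-(A0 * (2 ^ i * D0)))
    · have h1 := hBd2 (k + r) (by omega) (by omega) (pt τ θ) (pt_ne_zero _ _) hn1 (by
        rw [dep_pt]
        exact hlr)
      have h2 : E θ = 1 := by
        rw [hE]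
        simp only [hθ, if_true]
      rw [h2, mul_one]
      linarith
    · have h2 : E θ = 0 := by
        rw [hE]
        simp only [hθ, if_false]
      rw [h2, mul_zero, add_zero]
      push Not at hθ
      have hnpos : 0 < ‖ev (f k') (pt τ θ)‖ := lt_trans (Real.exp_pos _) hθ
      have hne : ev (f k') (pt τ θ) ≠ 0 := norm_pos_iff.mp hnpos
      have h1 := hPOT k N D0 (D0 / 3) β Q (fun j => κ1 * ell j) (fun j z => ev (f j) z) h r' W hP
        k' hkk' hk'N (pt τ θ) (pt_ne_zero _ _) hn1 (by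
          rw [dep_pt]
          linarith) (by
          intro hlt
          rw [dep_pt]
          have := hk2 hlt
          linarith) hne
      simp only [dep_pt] at h1
      have h3 : Q * (τ / (κ1 * ell k)) = c0 / 16 * Q := by
        rw [hτ]
        field_simp
      have h4 : 20 * β * Real.exp (-(2 ^ k * D0 / 8)) ≤ 20 * β * Real.exp (-(D0 / 8)) := by
        apply mul_le_mul_of_nonneg_left _ (by positivity)
        apply Real.exp_le_exp.mpr
        have h2k : (1 : ℝ) ≤ 2 ^ k := one_le_pow₀ (by norm_num)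
        have : D0 ≤ 2 ^ k * D0 := by nlinarith
        linarith
      have h5 : -(A0 * (2 ^ i * D0)) ≤ Real.log ‖ev (f k') (pt τ θ)‖ := by
        rw [Real.le_log_iff_exp_le hnpos]
        exact hθ.le
      have h6 : β * (D0 / 3 + (h (pt τ θ)).re - Real.log ‖ev (f k') (pt τ θ)‖)
          ≤ β * (D0 / 3 + (h (pt τ θ)).re + A0 * (2 ^ i * D0)) :=
        mul_le_mul_of_nonneg_left (by linarith) hβ0.le
      rw [h3] at h1
      linarith
  have hPI := PI_bound hW.hW hHR.hh hHR.hr hEint hw (lt_of_lt_of_le hτi hdw) pw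
  have hri : PI E (up τ w) ≤ 1 - c0 :=
    S.ri i k' (by omega) hk'N τ hτ0 (by linarith) w hw hwlt hdw hPG8
  have hhs := hHR.hsmall w hw hwlt (by linarith) hPG8
  have hrs := hHR.rsmall w hw hwlt (by linarith)
  have he : Real.exp (-(D0 / 32)) ≤ c0 / 64 := by
    refine (exp_neg_le (by linarith)).trans ?_
    rw [div_le_iff₀ g4] at hD4
    rw [div_le_iff₀ (by linarith)]
    linarith
  have he0 : 0 < Real.exp (-(D0 / 32)) := Real.exp_pos _
  have e4 : Real.exp (-(D0 / 4)) ≤ Real.exp (-(D0 / 32)) * Real.exp (-(D0 / 32)) := by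
    rw [← Real.exp_add]
    exact Real.exp_le_exp.mpr (by linarith)
  have e4' : Real.exp (-(D0 / 4)) ≤ q * γ ^ i * (c0 / 64) :=
    e4.trans (mul_le_mul hQ he he0.le hQ0.le)
  have e8 : Real.exp (-(D0 / 8)) ≤ 1 / 64 := by
    have : Real.exp (-(D0 / 8)) ≤ Real.exp (-(D0 / 32)) := Real.exp_le_exp.mpr (by linarith)
    linarith
  have e80 : 0 < Real.exp (-(D0 / 8)) := Real.exp_pos _
  have f1 : β * Real.exp (-(D0 / 8)) ≤ c0 * (q * γ ^ i) / 8 * (1 / 64) :=
    mul_le_mul hβb' e8 e80.le (by positivity)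
  have f2 : β * (h w).re ≤ β * Real.exp (-(D0 / 8)) := mul_le_mul_of_nonneg_left hhs hβ0.le
  have f3 : Q * PI E (up τ w) ≤ Q * (1 - c0) := mul_le_mul_of_nonneg_left hri hQp.le
  have f4 : β * (D0 / 3 + A0 * (2 ^ i * D0)) ≤ β * ((1 + A0) * (2 ^ i * D0)) := by
    apply mul_le_mul_of_nonneg_left _ hβ0.le
    have : D0 ≤ 2 ^ i * D0 := by nlinarith
    linarith
  have f5 : Q * (1 - c0 + c0 / 16) ≤ q * γ ^ i * (1 - 13 * c0 / 16) := by
    have h1 : 0 ≤ 1 - c0 + c0 / 16 := by linarith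
    have h2 := mul_le_mul_of_nonneg_right hQle h1
    have h3 : q * γ ^ i * (1 + c0 / 8) * (1 - c0 + c0 / 16)
        = q * γ ^ i * (1 - 13 * c0 / 16) - q * γ ^ i * (15 * c0 ^ 2 / 128) := by ring
    have h4 : 0 ≤ q * γ ^ i * (15 * c0 ^ 2 / 128) := by positivity
    linarith
  have f6 : 0 < q * γ ^ i * c0 := by positivity
  linarith

end Pool.Agent.Run7.h888.Q2
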