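import Pool.Agent.Run7.h888.Q2.PotA

/-! Piece SL (steep lemma) of project Q2 (helper104, MP_5bfbcb_an). -/

set_option autoImplicit false

namespace Pool.Agent.Run7.h888.Q2

open MeasureTheory AddCircle Complex Set Filter Topology Pool.Agent.W767.HL
open Pool.Agent.Run7.h104.Q2

lemma continuous_YcC {yb S D' : ℝ} {F h : ℂ → ℂ} (hL : LocData yb S F h) (y : ℝ) :
    Continuous fun t : Ci => Yc S D' F h (pt y t) := by
  have hp : Continuous fun t : Ci => pt y t := continuous_pt y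
  have hh : Continuous fun t : Ci => (h (pt y t)).re :=
    Complex.continuous_re.comp (hL.hh.continuous.comp hp)
  have hF : Continuous fun t : Ci => F (pt y t) := by
    rw [continuous_iff_continuousAt]
    intro t
    exact ContinuousAt.comp (f := fun t : Ci => pt y t) (hL.hF _ (pt_ne_zero y _)).continuousAt
      hp.continuousAt
  unfold Yc
  refine (continuous_const.add hh).sub (Continuous.log (hF.norm.max (Real.continuous_exp.comp
    ((continuous_const.add hh).sub continuous_const))) ?_)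
  intro t
  exact (lt_max_of_lt_right (Real.exp_pos _)).ne'

lemma beta_bound {Cd γ q D0 σ : ℝ} {i r k : ℕ} (hCd : 1 ≤ Cd) (hγ : 1 < γ) (hγ2 : γ ≤ 2)
    (hγr : γ ^ (2 * r + 2) ≤ 2) (hr : 512 * Cd ≤ 2 ^ r) (hik : i + r ≤ k) (hq : 0 < q)
    (hD : 0 < D0) (hσ : 0 < σ) (hCs : 32 * Cd * (2 ^ i * D0) ≤ σ * (q * γ ^ i)) :
    (16 * γ ^ (r + 1) * (q * γ ^ k) / (2 ^ k * D0) + 2 / σ) * (Cd * (2 ^ i * D0))
      ≤ q * γ ^ i / 8 := by
  have hγ0 : 0 < γ := by linarith
  obtain ⟨t, rfl⟩ := Nat.exists_eq_add_of_le hik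
  have h1 : γ ^ t ≤ 2 ^ t := pow_le_pow_left₀ hγ0.le hγ2 t
  have h2 : γ ^ (2 * r + 1) ≤ 2 := by
    refine le_trans ?_ hγr
    exact pow_le_pow_right₀ hγ.le (by omega)
  have hQ : 0 < q * γ ^ i := by positivity
  have e1 : 16 * γ ^ (r + 1) * (q * γ ^ (i + r + t)) / (2 ^ (i + r + t) * D0) * (Cd * (2 ^ i * D0))
      = (16 * Cd * (q * γ ^ i)) * (γ ^ (2 * r + 1) * γ ^ t) / (2 ^ r * 2 ^ t) := by
    rw [pow_add 2 (i + r) t, pow_add 2 i r]
    field_simp
    ring
  have h3 : γ ^ (2 * r + 1) * γ ^ t ≤ 2 * 2 ^ t := by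
    apply mul_le_mul h2 h1 (by positivity) (by norm_num)
  have h4 : (16 * Cd * (q * γ ^ i)) * (γ ^ (2 * r + 1) * γ ^ t) / (2 ^ r * 2 ^ t)
      ≤ q * γ ^ i / 16 := by
    rw [div_le_iff₀ (by positivity)]
    have h5 : (16 * Cd * (q * γ ^ i)) * (γ ^ (2 * r + 1) * γ ^ t)
        ≤ (16 * Cd * (q * γ ^ i)) * (2 * 2 ^ t) := mul_le_mul_of_nonneg_left h3 (by positivity)
    have h6 : 512 * Cd * ((q * γ ^ i) * 2 ^ t) ≤ 2 ^ r * ((q * γ ^ i) * 2 ^ t) :=
      mul_le_mul_of_nonneg_right hr (by positivity)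
    nlinarith
  have h7 : 2 / σ * (Cd * (2 ^ i * D0)) ≤ q * γ ^ i / 16 := by
    rw [div_mul_eq_mul_div, div_le_iff₀ hσ]
    nlinarith
  rw [add_mul, e1]
  linarith

theorem t_SL (hHEX : S_HEX) (hPOT : S_POT) (hLINT : S_LINT) : S_SL := by
  intro κ1 A0 c0 κ6 g1 g2 g3 g4 g5 g6 g7 g8
  obtain ⟨Cd, Dm1, hCd, hL⟩ := hLINT κ1 A0 c0 κ6 g1 g2 g3 g4 g5 g6 g7
  obtain ⟨Dm2, hX⟩ := hHEX
  obtain ⟨r0, hr0⟩ := pow_unbounded_of_one_lt (512 * Cd) (one_lt_two (α := ℝ))
  refine ⟨r0 + 1, 32 * Cd, max (max Dm1 Dm2) 10000, by omega, by linarith, ?_⟩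
  intro γ hγ hγr D0 σ q N G f ell W hD hσ hq S hW i hiN hsteep hQ hCs hBd
  have hr : 512 * Cd ≤ 2 ^ (r0 + 1) := by
    rw [pow_succ]
    have : (0 : ℝ) < 2 ^ r0 := by positivity
    linarith
  generalize hrr : r0 + 1 = r at *
  have hr1 : 1 ≤ r := by omega
  have hD1 : Dm1 ≤ D0 := le_trans (le_trans (le_max_left _ _) (le_max_left _ _)) hD
  have hD2 : Dm2 ≤ D0 := le_trans (le_trans (le_max_right _ _) (le_max_left _ _)) hD
  have hD3 : 10000 ≤ D0 := le_trans (le_max_right _ _) hD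
  have hD0 : 0 < D0 := by linarith
  have hσ0 : 0 < σ := by linarith
  have hγ0 : 0 < γ := by linarith
  have hγ2 : γ ≤ 2 := by
    refine le_trans ?_ hγr
    exact le_self_pow₀ hγ.le (by omega)
  -- the index k
  set Pk : ℕ → Prop := fun k => 4 * (κ6 * ell i) ≤ κ1 * ell k with hPk
  classical
  set k := Nat.findGreatest Pk N with hkdef
  have hk0 : i + r ≤ k := Nat.le_findGreatest hiN hsteep
  have hkN : k ≤ N := Nat.findGreatest_le N
  have hk1 : 4 * (κ6 * ell i) ≤ κ1 * ell k := by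
    have : Pk k := Nat.findGreatest_spec (P := Pk) hiN hsteep
    exact this
  have hk2 : k < N → κ1 * ell (k + 1) < 4 * (κ6 * ell i) := by
    intro hlt
    have : ¬ Pk (k + 1) := Nat.findGreatest_is_greatest (P := Pk) (Nat.lt_succ_self k) hlt
    simpa only [hPk, not_le] using this
  have hik : i < k := by omega
  obtain ⟨h, r', hHR⟩ := hX κ1 (4 * κ6) A0 c0 D0 N G f ell g1 g2 (by linarith) hD2 S k hkN
  set β := 16 * γ ^ (r + 1) * (q * γ ^ k) / (2 ^ k * D0) + 2 / σ with hβ
  have hβ0 : 0 < β := by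
    have : 0 < 16 * γ ^ (r + 1) * (q * γ ^ k) / (2 ^ k * D0) := by positivity
    have : 0 < 2 / σ := by positivity
    linarith
  have hβb : β * (Cd * (2 ^ i * D0)) ≤ q * γ ^ i / 8 :=
    beta_bound hCd hγ hγ2 hγr hr hk0 hq hD0 hσ0 hCs
  have hQ0 : 0 < q * γ ^ i := by positivity
  have hβb' : β ≤ q * γ ^ i / 8 := by
    refine le_trans ?_ hβb
    have h2i : (1 : ℝ) ≤ 2 ^ i := one_le_pow₀ (by norm_num)
    have h1 : 1 * 1 ≤ (2 : ℝ) ^ i * D0 := mul_le_mul h2i (by linarith) (by norm_num) (by positivity)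
    have h2 : 1 * (1 * 1) ≤ Cd * (2 ^ i * D0) :=
      mul_le_mul hCd h1 (by norm_num) (by linarith)
    have h3 := mul_le_mul_of_nonneg_left h2 hβ0.le
    linarith
  have hli : 0 < ell i := S.ell_pos i
  have hlk : 0 < ell k := S.ell_pos k
  have hlki : ell k ≤ ell i := S.ell_anti hik.le
  have hli1 : ell i ≤ 1 := S.ell_le i
  set yb := κ6 * ell i with hyb
  have hyb0 : 0 < yb := by positivity
  have hyb1 : yb ≤ 1 / 16 := by
    rw [hyb]
    nlinarith
  have hκk : 4 * κ6 * ell k ≤ 4 * yb := by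
    rw [hyb]
    nlinarith
  have hyi : 4 * yb ≤ ell i := by
    rw [hyb]
    nlinarith
  have hLoc : LocData yb (D0 / 3) (fun z => ev (f k) z) h :=
    { hyb := hyb0
      hyb1 := hyb1
      hF := fun z hz => analyticAt_ev (f k) hz
      hh := hHR.hh
      pos := fun z hz d1 d2 => hHR.pos k le_rfl hkN z hz
        (norm_lt_of_dep hz (by linarith)).le (by linarith) }
  have he : Real.exp (-(D0 / 32)) ≤ 1 / 300 := by
    refine (exp_neg_le (by linarith)).trans ?_
    apply one_div_le_one_div_of_le (by norm_num)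
    linarith
  have he0 : 0 < Real.exp (-(D0 / 32)) := Real.exp_pos _
  have e16 : Real.exp (-(D0 / 16)) = Real.exp (-(D0 / 32)) * Real.exp (-(D0 / 32)) := by
    rw [← Real.exp_add]
    congr 1
    ring
  have e4 : Real.exp (-(D0 / 4)) ≤ Real.exp (-(D0 / 16)) := Real.exp_le_exp.mpr (by linarith)
  have e8 : Real.exp (-(D0 / 8)) ≤ Real.exp (-(D0 / 32)) := Real.exp_le_exp.mpr (by linarith)
  have e80 : 0 < Real.exp (-(D0 / 8)) := Real.exp_pos _
  have step : ∀ U, 0 ≤ U → Bd W (4 * yb) U → Bd W (4 * yb) (U / 4 + q * γ ^ i / 6) := by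
    intro U hU hUB zs hzs hzs1 hds
    by_cases hpos : 0 < (W zs).re
    swap
    · push Not at hpos
      linarith
    have hzlt : ‖zs‖ < 1 := norm_lt_of_dep hzs (by linarith)
    have hP := mkPot (κ7 := 4 * κ6) (r := r) (k := k) (U := U) g1 (by linarith) hσ hq hγ hγ2 S hW hHR hkN
      (fun j hj hjN => hBd j (by omega) hjN) hU (fun z hz hz1 hd => hUB z hz hz1 (hk1.trans hd))
    have pw : ∀ θ, (W (pt yb θ)).re ≤ (U / 4 + 20 * β * Real.exp (-(D0 / 8)))
        + 0 * (h (pt yb θ)).re + (r' (pt yb θ)).re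
        + β * Yc (D0 / 3) (1 / β) (fun z => ev (f k) z) h (pt yb θ) := by
      intro θ
      have hn1 : ‖pt yb θ‖ ≤ 1 := by
        rw [norm_pt]
        exact Real.exp_le_one_iff.mpr (by linarith)
      have hr0' := hHR.hr0 _ hn1
      have hβe : 0 ≤ 20 * β * Real.exp (-(D0 / 8)) := by positivity
      rcases Yc_cases (D0 / 3) (1 / β) (fun z => ev (f k) z) h (pt yb θ) _ le_rfl with ⟨hne, hc⟩ | hc
      · have h1 := hPOT k N D0 (D0 / 3) β U (fun j => κ1 * ell j) (fun j z => ev (f j) z) h r' W hP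
          k le_rfl hkN (pt yb θ) (pt_ne_zero _ _) hn1 (by
            rw [dep_pt]
            linarith) (by
            intro hlt
            rw [dep_pt]
            have := hk2 hlt
            linarith) hne
        simp only [dep_pt] at h1
        have h2 : U * (yb / (κ1 * ell k)) ≤ U / 4 := by
          have h3 : yb / (κ1 * ell k) ≤ 1 / 4 := by
            rw [div_le_iff₀ (by positivity)]
            linarith
          have := mul_le_mul_of_nonneg_left h3 hU
          linarith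
        have h4 : 20 * β * Real.exp (-(2 ^ k * D0 / 8)) ≤ 20 * β * Real.exp (-(D0 / 8)) := by
          apply mul_le_mul_of_nonneg_left _ (by positivity)
          apply Real.exp_le_exp.mpr
          have h2k : (1 : ℝ) ≤ 2 ^ k := one_le_pow₀ (by norm_num)
          have : D0 ≤ 2 ^ k * D0 := by nlinarith
          linarith
        have h5 := mul_le_mul_of_nonneg_left hc hβ0.le
        linarith
      · have h1 := hW.W1 _ hn1
        have h2 := mul_le_mul_of_nonneg_left hc hβ0.le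
        have h3 : β * (1 / β) = 1 := by field_simp
        rw [h3] at h2
        have h4 : 0 ≤ U / 4 := by linarith
        linarith
    have hPI := PI_bound hW.hW hHR.hh hHR.hr (integrable_of_cont (continuous_YcC hLoc yb)) hzs
      (by linarith) pw
    have hPG := hW.W2 zs hzlt hpos
    have hLI := hL (4 * κ6) D0 N G f ell hD1 S i k hik hkN hk1 h hHR.hh hHR.hh0
      (fun z hz hz1 hd => hHR.pos k le_rfl hkN z hz hz1 hd)
      (fun w hw hw1 hdw hPw => by
        refine (hHR.hsmall w hw hw1 (by linarith) hPw).trans ?_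
        exact Real.exp_le_one_iff.mpr (by linarith))
      (1 / β) (by positivity) zs hzs hzlt hds hPG
    have hrs := hHR.rsmall zs hzs hzlt (by linarith)
    have h6 := mul_le_mul_of_nonneg_left hLI hβ0.le
    have h7 : β * (Cd * (2 ^ i * D0) + 1 / β * Real.exp (-(D0 / 16)))
        = β * (Cd * (2 ^ i * D0)) + Real.exp (-(D0 / 16)) := by
      field_simp
    rw [h7] at h6
    have h8 : β * Real.exp (-(D0 / 8)) ≤ q * γ ^ i / 8 * (1 / 300) := by
      apply mul_le_mul hβb' (e8.trans he) e80.le (by positivity)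
    have h9 : Real.exp (-(D0 / 16)) ≤ q * γ ^ i * (1 / 300) := by
      rw [e16]
      exact mul_le_mul hQ he he0.le hQ0.le
    linarith
  have iter : ∀ n : ℕ, Bd W (4 * yb) ((1 / 4) ^ n + 2 * (q * γ ^ i) / 9) := by
    intro n
    induction n with
    | zero =>
      intro z hz hz1 _
      have := hW.W1 z hz1
      simp only [pow_zero]
      linarith
    | succ n ih =>
      have h1 := step _ (by positivity) ih
      intro z hz hz1 hd
      have h2 := h1 z hz hz1 hd
      rw [pow_succ]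
      linarith
  obtain ⟨n, hn⟩ := exists_pow_lt_of_lt_one (show 0 < q * γ ^ i / 4 by positivity)
    (show (1 / 4 : ℝ) < 1 by norm_num)
  intro z hz hz1 hd
  have := iter n z hz hz1 hd
  linarith

end Pool.Agent.Run7.h888.Q2
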