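import Pool.Agent.Run7.h104.Q2.Defs2
import Pool.Agent.Run7.h888.Q2.CHAIN

/-! Tools for the pieces SL and NS of project Q2 (helper104, MP_5bfbcb_an). -/

set_option autoImplicit false

namespace Pool.Agent.Run7.h888.Q2

open MeasureTheory AddCircle Complex Set Filter Topology Pool.Agent.W767.HL
open Pool.Agent.Run7.h104.Q2

lemma norm_lt_of_dep {z : ℂ} (hz : z ≠ 0) (h : 0 < dep z) : ‖z‖ < 1 := by
  unfold dep at h
  have h0 : 0 < ‖z‖ := norm_pos_iff.mpr hz
  by_contra hcon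
  push Not at hcon
  have := Real.log_nonneg hcon
  linarith

lemma norm_up (y : ℝ) (z : ℂ) : ‖up y z‖ = Real.exp y * ‖z‖ := by
  unfold up
  rw [norm_mul, Complex.norm_real, Real.norm_eq_abs, abs_of_pos (Real.exp_pos _)]

lemma up_ne_zero (y : ℝ) {z : ℂ} (hz : z ≠ 0) : up y z ≠ 0 := by
  rw [← norm_pos_iff, norm_up]
  exact mul_pos (Real.exp_pos _) (norm_pos_iff.mpr hz)

lemma dep_up (y : ℝ) {z : ℂ} (hz : z ≠ 0) : dep (up y z) = dep z - y := by
  unfold dep
  rw [norm_up, Real.log_mul (Real.exp_pos _).ne' (norm_pos_iff.mpr hz).ne', Real.log_exp]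
  ring

lemma norm_up_lt {y : ℝ} {z : ℂ} (hz : z ≠ 0) (h : y < dep z) : ‖up y z‖ < 1 := by
  apply norm_lt_of_dep (up_ne_zero y hz)
  rw [dep_up y hz]
  linarith

lemma int_re_pt {H : ℂ → ℂ} (hH : Differentiable ℂ H) {y : ℝ} {z : ℂ} (hz : z ≠ 0) (h : y < dep z) :
    ∫ θ, P (up y z) θ * (H (pt y θ)).re ∂mu = (H z).re := by
  have h1 : Differentiable ℂ fun ζ : ℂ => H ((Real.exp (-y) : ℂ) * ζ) :=
    hH.comp (differentiable_id.const_mul _)
  have h2 := poisson_re h1 (norm_up_lt hz h)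
  have h3 : (Real.exp (-y) : ℂ) * up y z = z := by
    unfold up
    rw [← mul_assoc, ← Complex.ofReal_mul, ← Real.exp_add]
    simp
  rw [h3] at h2
  exact h2

lemma cont_re_pt {H : ℂ → ℂ} (hH : Differentiable ℂ H) (y : ℝ) :
    Continuous fun θ : Ci => (H (pt y θ)).re :=
  Complex.continuous_re.comp (hH.continuous.comp (continuous_pt y))

/-- the Poisson integral of a pointwise estimate at depth `y` -/
lemma PI_bound {W h r : ℂ → ℂ} (hW : Differentiable ℂ W) (hh : Differentiable ℂ h)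
    (hr : Differentiable ℂ r) {y c b Q : ℝ} {g : Ci → ℝ} (hg : Integrable g mu) {z : ℂ} (hz : z ≠ 0)
    (hy : y < dep z)
    (hle : ∀ θ, (W (pt y θ)).re ≤ c + b * (h (pt y θ)).re + (r (pt y θ)).re + Q * g θ) :
    (W z).re ≤ c + b * (h z).re + (r z).re + Q * PI g (up y z) := by
  have hv := norm_up_lt hz hy
  have hP := continuous_P hv
  have i0 : Integrable (fun θ => P (up y z) θ * (W (pt y θ)).re) mu :=
    integrable_of_cont (hP.mul (cont_re_pt hW y))
  have i1 : Integrable (fun θ => P (up y z) θ * (h (pt y θ)).re) mu :=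
    integrable_of_cont (hP.mul (cont_re_pt hh y))
  have i2 : Integrable (fun θ => P (up y z) θ * (r (pt y θ)).re) mu :=
    integrable_of_cont (hP.mul (cont_re_pt hr y))
  have i3 : Integrable (fun θ => P (up y z) θ * g θ) mu := by
    have := integrable_P_mul hv hg
    simpa only [smul_eq_mul] using this
  have i4 : Integrable (fun θ => P (up y z) θ) mu := integrable_of_cont hP
  have j1 : Integrable (fun θ => P (up y z) θ * c) mu := i4.mul_const c
  have j2 : Integrable (fun θ => b * (P (up y z) θ * (h (pt y θ)).re)) mu := i1.const_mul b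
  have j3 : Integrable (fun θ => Q * (P (up y z) θ * g θ)) mu := i3.const_mul Q
  have j4 : Integrable (fun θ => P (up y z) θ * c + b * (P (up y z) θ * (h (pt y θ)).re)) mu := j1.add j2
  have j5 : Integrable (fun θ => P (up y z) θ * c + b * (P (up y z) θ * (h (pt y θ)).re)
      + P (up y z) θ * (r (pt y θ)).re) mu := j4.add i2
  rw [← int_re_pt hW hz hy, ← int_re_pt hh hz hy, ← int_re_pt hr hz hy]
  have h1 : ∫ θ, P (up y z) θ * (W (pt y θ)).re ∂mu ≤ ∫ θ, (((P (up y z) θ * c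
      + b * (P (up y z) θ * (h (pt y θ)).re)) + P (up y z) θ * (r (pt y θ)).re)
      + Q * (P (up y z) θ * g θ)) ∂mu := by
    refine integral_mono i0 (j5.add j3) ?_
    intro θ
    have h2 := mul_le_mul_of_nonneg_left (hle θ) (P_pos hv θ).le
    show P (up y z) θ * (W (pt y θ)).re ≤ P (up y z) θ * c + b * (P (up y z) θ * (h (pt y θ)).re)
      + P (up y z) θ * (r (pt y θ)).re + Q * (P (up y z) θ * g θ)
    linarith
  rw [integral_add j5 j3, integral_add j4 i2, integral_add j1 j2, integral_mul_const,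
    integral_const_mul, integral_const_mul, integral_P hv, one_mul] at h1
  exact h1

lemma analyticAt_ev (f : ℤ →₀ ℂ) {z : ℂ} (hz : z ≠ 0) : AnalyticAt ℂ (fun z => ev f z) z := by
  have h1 : (fun z => ev f z) = fun z => ∑ n ∈ f.support, f n * z ^ n := by
    funext z
    rw [ev_eq_sum]
    rfl
  rw [h1]
  apply Finset.analyticAt_fun_sum
  intro n _
  exact analyticAt_const.mul (analyticAt_id.zpow hz)

/-- the data for the potential theoretic lemma -/
lemma mkPot {κ1 κ7 A0 c0 D0 σ q γ : ℝ} {N k r : ℕ} {G : ℤ →₀ ℂ} {f : ℕ → (ℤ →₀ ℂ)} {ell : ℕ → ℝ}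
    {W h r' : ℂ → ℂ} (hκ : 0 < κ1) (hD : 100 ≤ D0) (hσ : 2 ≤ σ) (hq : 0 < q) (hγ : 1 < γ)
    (hγ2 : γ ≤ 2) (S : Sys κ1 κ7 A0 c0 D0 N G f ell) (hW : WData D0 σ G W)
    (hHR : HRData κ1 κ7 D0 N k G f ell h r') (hk : k ≤ N)
    (hBd : ∀ j, k < j → j ≤ N → Bd W (κ1 / 4 * ell j) (q * γ ^ (j + r)))
    {U : ℝ} (hU : 0 ≤ U) (hUB : Bd W (κ1 * ell k) U) :
    PotData k N D0 (D0 / 3) (16 * γ ^ (r + 1) * (q * γ ^ k) / (2 ^ k * D0) + 2 / σ) U
      (fun j => κ1 * ell j) (fun j z => ev (f j) z) h r' W := by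
  have hD0 : 0 < D0 := by linarith
  have hσ0 : 0 < σ := by linarith
  have hγ0 : 0 < γ := by linarith
  have hb1 : 0 < 16 * γ ^ (r + 1) * (q * γ ^ k) / (2 ^ k * D0) := by positivity
  have hb2 : 0 < 2 / σ := by positivity
  refine
    { hkN := hk
      hy := fun i => mul_pos hκ (S.ell_pos i)
      hanti := fun a b hab => mul_le_mul_of_nonneg_left (S.ell_anti hab) hκ.le
      hF := fun i z hz => analyticAt_ev (f i) hz
      hh := hHR.hh
      hr := hHR.hr
      hW := hW.hW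
      hh0 := hHR.hh0
      hr0 := hHR.hr0
      hβ := by positivity
      hS := by positivity
      hU := hU
      hD0 := hD
      pos := hHR.pos
      W1 := hW.W1
      bad := ?_
      top := hUB
      bot := ?_
      mis := ?_ }
  · intro i hki hiN z hz hz1 hd
    have h1 := hBd (i + 1) (by omega) (by omega) z hz hz1 (by
      have : κ1 / 4 * ell (i + 1) = κ1 * ell (i + 1) / 4 := by ring
      rw [this]; exact hd)
    refine h1.trans ?_
    obtain ⟨t, rfl⟩ := Nat.exists_eq_add_of_le hki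
    have h2 : γ ^ t ≤ 2 ^ t := pow_le_pow_left₀ hγ0.le hγ2 t
    have h3 : q * γ ^ (k + t + 1 + r) = (q * γ ^ k * γ ^ (r + 1)) * γ ^ t := by ring
    have h4 : (16 * γ ^ (r + 1) * (q * γ ^ k) / (2 ^ k * D0)) * (2 ^ (k + t) * D0 / 8)
        = 2 * ((q * γ ^ k * γ ^ (r + 1)) * 2 ^ t) := by
      rw [pow_add]
      field_simp
      ring
    have h5 : 0 ≤ 2 / σ * (2 ^ (k + t) * D0 / 8) := by positivity
    have h6 : (q * γ ^ k * γ ^ (r + 1)) * γ ^ t ≤ (q * γ ^ k * γ ^ (r + 1)) * 2 ^ t :=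
      mul_le_mul_of_nonneg_left h2 (by positivity)
    have h7 : 0 ≤ (q * γ ^ k * γ ^ (r + 1)) * 2 ^ t := by positivity
    rw [h3, add_mul, h4]
    linarith
  · intro z hz hpos hne
    rw [S.fN] at hne ⊢
    have h1 := hW.W3 z hz hpos
    have h2 : Real.log ‖ev G z‖ ≤ Real.log 2 - σ := by
      have h3 := Real.log_le_log (norm_pos_iff.mpr hne) h1
      rw [Real.log_mul (by norm_num) (Real.exp_pos _).ne', Real.log_exp] at h3
      linarith
    have h4 : Real.log 2 ≤ 1 := by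
      have := Real.log_two_lt_d9
      linarith
    have h5 : σ / 2 ≤ -Real.log ‖ev G z‖ := by linarith
    have h6 : 2 / σ * (σ / 2) = 1 := by field_simp
    have h7 : 0 ≤ -Real.log ‖ev G z‖ := by linarith
    calc (1 : ℝ) = 2 / σ * (σ / 2) := h6.symm
      _ ≤ 2 / σ * (-Real.log ‖ev G z‖) := mul_le_mul_of_nonneg_left h5 hb2.le
      _ ≤ _ := mul_le_mul_of_nonneg_right (by linarith) h7
  · intro i hki hiN z hz hz1 hd1 hd2 hr1
    have h1 : 0 < κ1 * ell (i + 1) := mul_pos hκ (S.ell_pos _)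
    exact hHR.mis i hki hiN z hz (norm_lt_of_dep hz (by linarith)) hd2 hr1

lemma exp_neg_le {x : ℝ} (hx : 0 < x) : Real.exp (-x) ≤ 1 / x := by
  rw [Real.exp_neg, ← one_div]
  apply one_div_le_one_div_of_le hx
  have := Real.add_one_le_exp x
  linarith

end Pool.Agent.Run7.h888.Q2
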